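import Pool.Agent.H25.PG.Targets

/-!
# Row D1: the digits of a sum of digits
-/

set_option autoImplicit false

open Finset

namespace Pool.Agent.H14.PG

open Pool.Agent.H25.PG

theorem sum_lt (g : ℕ) (d : ℕ → ℕ) (hd : ∀ j, d j < g) : ∀ K : ℕ,
    ∑ j ∈ range K, d j * g ^ j < g ^ K
  | 0 => by simp
  | K + 1 => by
    rw [Finset.sum_range_succ, pow_succ]
    have h1 := sum_lt g d hd K
    have h2 : (d K + 1) * g ^ K ≤ g * g ^ K := Nat.mul_le_mul_right _ (hd K)
    nlinarith

theorem pf_D1 : T_D1 := by
  intro g d K i hg hd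
  unfold dg
  have hg0 : 0 < g := by omega
  induction K with
  | zero => simp
  | succ K ih =>
    rw [Finset.sum_range_succ]
    have hpow : ∀ n, 0 < g ^ n := fun n => pow_pos hg0 n
    rcases lt_trichotomy i K with h | h | h
    · rw [if_pos (by omega)]
      rw [if_pos h] at ih
      have e : d K * g ^ K = g ^ i * (d K * g ^ (K - i)) := by
        have : g ^ K = g ^ i * g ^ (K - i) := by rw [← pow_add]; congr 1; omega
        rw [this]
        ring
      rw [e, Nat.add_mul_div_left _ _ (hpow i)]
      have e2 : d K * g ^ (K - i) = g * (d K * g ^ (K - i - 1)) := by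
        have : g ^ (K - i) = g * g ^ (K - i - 1) := by
          rw [← pow_succ']
          congr 1
          omega
        rw [this]
        ring
      rw [e2, Nat.add_mul_mod_self_left]
      exact ih
    · subst h
      rw [if_pos (by omega), Nat.add_mul_div_right _ _ (hpow i),
        Nat.div_eq_of_lt (sum_lt g d hd i), zero_add, Nat.mod_eq_of_lt (hd i)]
    · rw [if_neg (by omega)]
      have h1 := sum_lt g d hd (K + 1)
      rw [Finset.sum_range_succ] at h1
      have h2 : g ^ (K + 1) ≤ g ^ i := Nat.pow_le_pow_right hg0 (by omega)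
      rw [Nat.div_eq_of_lt (lt_of_lt_of_le h1 h2), Nat.zero_mod]

end Pool.Agent.H14.PG
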